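import Pool.Agent.P8H81.LP.Stm2

/-! # Project LPB, package NUM: the choice of the parameters -/

set_option autoImplicit false

namespace Pool.Agent.P8H94.LPB

open Pool.Agent.P8H81.LP

theorem num : S_NUM := by
  intro a κ C₀ CE c R₀ ha hκ hC₀ hCE hc
  obtain ⟨B, hB⟩ : ∃ B : ℕ, B = R₀ + ⌈2 * Real.exp 3 * C₀ ^ 2⌉₊ + 2 := ⟨_, rfl⟩
  have hB2 : 2 ≤ B := by omega
  have hBC : 2 * Real.exp 3 * C₀ ^ 2 ≤ (B : ℝ) := by
    have h1 := Nat.le_ceil (2 * Real.exp 3 * C₀ ^ 2)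
    have h2 : ((⌈2 * Real.exp 3 * C₀ ^ 2⌉₊ : ℕ) : ℝ) ≤ (B : ℝ) := by
      exact_mod_cast (by omega : ⌈2 * Real.exp 3 * C₀ ^ 2⌉₊ ≤ B)
    linarith
  have hB0 : (2 : ℝ) ≤ B := by exact_mod_cast hB2
  refine ⟨B, by omega, by omega, fun C₁ N₀ hC₁ => ?_⟩
  have hCC : 0 < CE * C₁ := mul_pos hCE hC₁
  have hsq : 0 < √(CE * C₁) := Real.sqrt_pos.2 hCC
  obtain ⟨K, hK⟩ : ∃ K, K = κ * c / √(CE * C₁) := ⟨_, rfl⟩
  have hK0 : 0 < K := by rw [hK]; positivity
  obtain ⟨D, hD⟩ : ∃ D, D = 2 * Real.log B := ⟨_, rfl⟩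
  have hD0 : 0 < D := by
    have := Real.log_pos (show (1 : ℝ) < B by linarith)
    rw [hD]; linarith
  obtain ⟨s, hs⟩ : ∃ s, s = (a + 1) / 2 := ⟨_, rfl⟩
  have hs0 : 0 < s := by rw [hs]; linarith
  have hsi : 2 / (a + 1) = s⁻¹ := by rw [hs, inv_div]
  obtain ⟨X₀, hX₀⟩ : ∃ X₀ : ℝ, X₀ = N₀ + 8 := ⟨_, rfl⟩
  have hN₀ : (0 : ℝ) ≤ N₀ := Nat.cast_nonneg _
  have hX₀8 : 8 ≤ X₀ := by rw [hX₀]; linarith
  have hX₀p : 0 < X₀ := by linarith
  refine ⟨(D / K) * 2 ^ s, D / (K * X₀ ^ s), by positivity, by positivity, fun β hβ hβ' => ?_⟩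
  obtain ⟨X, hX⟩ : ∃ X, X = (D / (K * β)) ^ (s⁻¹) := ⟨_, rfl⟩
  have hXs : X ^ s = D / (K * β) := by
    rw [hX, ← Real.rpow_mul (by positivity), inv_mul_cancel₀ hs0.ne', Real.rpow_one]
  have hXX : X₀ ≤ X := by
    have h1 : X₀ ^ s ≤ D / (K * β) := by
      rw [lt_div_iff₀ (by positivity)] at hβ'
      rw [le_div_iff₀ (by positivity)]
      nlinarith
    have h2 : X₀ = (X₀ ^ s) ^ (s⁻¹) := by
      rw [← Real.rpow_mul hX₀p.le, mul_inv_cancel₀ hs0.ne', Real.rpow_one]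
    rw [h2, hX]
    exact Real.rpow_le_rpow (by positivity) h1 (by positivity)
  have hX0 : 0 < X := by linarith
  obtain ⟨N, hN⟩ : ∃ N : ℕ, N = ⌈Real.exp X⌉₊ := ⟨_, rfl⟩
  have hN1 : Real.exp X ≤ N := by rw [hN]; exact Nat.le_ceil _
  have hN2 : (N : ℝ) < Real.exp X + 1 := by rw [hN]; exact Nat.ceil_lt_add_one (Real.exp_pos X).le
  have hNX : X + 1 ≤ N := (Real.add_one_le_exp X).trans hN1
  have hNpos : (0 : ℝ) < N := by linarith
  obtain ⟨L, hL⟩ : ∃ L, L = Real.log N := ⟨_, rfl⟩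
  have hXL : X ≤ L := by
    rw [hL, Real.le_log_iff_exp_le hNpos]
    exact hN1
  have hL0 : 0 < L := by linarith
  have hL8 : 8 ≤ L := by linarith
  refine ⟨N, (√(CE * C₁) * L ^ ((a + 3) / 2))⁻¹, ?_, ?_, by positivity, ?_, ?_⟩
  · have h1 : (8 : ℝ) ≤ N := by linarith
    exact_mod_cast h1
  · have h1 : (N₀ : ℝ) ≤ N := by linarith
    exact_mod_cast h1
  · have h1 : (D / K * 2 ^ s / β) ^ (2 / (a + 1)) = 2 * X := by
      rw [hsi, hX]
      have h2 : D / K * 2 ^ s / β = 2 ^ s * (D / (K * β)) := by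
        field_simp
      rw [h2, Real.mul_rpow (by positivity) (by positivity), ← Real.rpow_mul (by norm_num),
        mul_inv_cancel₀ hs0.ne', Real.rpow_one]
    rw [h1, Real.exp_neg, one_div]
    apply inv_anti₀ hNpos
    have h3 : Real.exp X + 1 ≤ Real.exp (2 * X) := by
      have h4 : Real.exp (2 * X) = Real.exp X * Real.exp X := by rw [← Real.exp_add]; ring_nf
      have h5 := Real.add_one_le_exp X
      have h6 : 2 ≤ Real.exp X := by linarith
      rw [h4]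
      nlinarith
    linarith
  · intro θ hθ G S hG hS
    rw [← hL] at hθ hG hS
    obtain ⟨δ, hδ⟩ : ∃ δ, δ = (√(CE * C₁) * L ^ ((a + 3) / 2))⁻¹ := ⟨_, rfl⟩
    rw [← hδ] at hG ⊢
    have hδ0 : 0 < δ := by rw [hδ]; positivity
    have hLa : 0 < L ^ ((a + 3) / 2) := Real.rpow_pos_of_pos hL0 _
    have hLa2 : 0 < L ^ (a + 2) := Real.rpow_pos_of_pos hL0 _
    have hL2 : L ^ ((a + 3) / 2) * L ^ ((a + 3) / 2) = L ^ (a + 2) * L := by
      rw [← Real.rpow_add hL0, ← Real.rpow_add_one hL0.ne']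
      congr 1
      ring
    have hδ2 : δ ^ 2 * (CE * (C₁ * L ^ (a + 2))) = 1 / L := by
      rw [hδ, inv_pow, mul_pow, Real.sq_sqrt hCC.le, pow_two, hL2]
      field_simp
    have hG' : G ≤ 1 / L := by rw [← hδ2]; exact hG
    have hθ1 : θ / (1 - θ) = L - 1 := by
      rw [hθ]
      field_simp
      ring
    have e1 : Real.exp (θ / (1 - θ) * G / 2) ≤ Real.exp (1 / 2) := by
      apply Real.exp_le_exp.2
      rw [hθ1]
      have h1 : (L - 1) * G ≤ (L - 1) * (1 / L) := mul_le_mul_of_nonneg_left hG' (by linarith)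
      have h2 : (L - 1) * (1 / L) ≤ 1 := by
        rw [mul_one_div, div_le_one hL0]
        linarith
      linarith
    have hθh : 1 / 2 ≤ θ := by
      rw [hθ]
      have : 1 / L ≤ 1 / 8 := one_div_le_one_div_of_le (by norm_num) hL8
      linarith
    -- the tilt
    have hLs : L ^ (a + 2) / L ^ ((a + 3) / 2) = L ^ s := by
      rw [← Real.rpow_sub hL0, hs]
      congr 1
      ring
    have e2 : D ≤ β * δ * κ * S := by
      have h1 : β * δ * κ * (c * L ^ (a + 2)) ≤ β * δ * κ * S :=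
        mul_le_mul_of_nonneg_left hS (by positivity)
      have h2 : β * δ * κ * (c * L ^ (a + 2)) = β * K * L ^ s := by
        rw [← hLs, hK, hδ]
        field_simp
      have h3 : X ^ s ≤ L ^ s := Real.rpow_le_rpow hX0.le hXL hs0.le
      have h4 : β * K * X ^ s = D := by
        rw [hXs]
        field_simp
      have h5 : β * K * X ^ s ≤ β * K * L ^ s := mul_le_mul_of_nonneg_left h3 (by positivity)
      linarith
    have e3 : Real.exp (-(2 * β * δ * κ) * S / 2) ≤ 1 / (B : ℝ) ^ 2 := by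
      have h1 : Real.exp (-(2 * β * δ * κ) * S / 2) ≤ Real.exp (-D) := by
        apply Real.exp_le_exp.2
        linarith
      have h2 : Real.exp (-D) = 1 / (B : ℝ) ^ 2 := by
        rw [hD, Real.exp_neg, one_div, mul_comm, Real.exp_mul, Real.exp_log (by linarith)]
        norm_num
      linarith
    have e4 : Real.exp (-(2 * β * δ * κ) * S / 2) + 2 / (B : ℝ) ^ 2 ≤ 4 / (B : ℝ) ^ 2 := by
      have h1 : 0 < 1 / (B : ℝ) ^ 2 := by positivity
      have h2 : 2 / (B : ℝ) ^ 2 = 2 * (1 / (B : ℝ) ^ 2) := by ring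
      have h3 : 4 / (B : ℝ) ^ 2 = 4 * (1 / (B : ℝ) ^ 2) := by ring
      rw [h2, h3]
      linarith
    have e5 : (4 / (B : ℝ) ^ 2) ≤ 1 := by
      rw [div_le_one (by positivity)]
      nlinarith
    have e6 : (Real.exp (-(2 * β * δ * κ) * S / 2) + 2 / (B : ℝ) ^ 2) ^ (θ / 2) ≤
        (4 / (B : ℝ) ^ 2) ^ (1 / 4 : ℝ) := by
      refine (Real.rpow_le_rpow (by positivity) e4 (by linarith)).trans ?_
      exact Real.rpow_le_rpow_of_exponent_ge (by positivity) e5 (by linarith)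
    have e7 : (4 / (B : ℝ) ^ 2) ^ (1 / 4 : ℝ) ≤ Real.exp (-(3 / 2)) / C₀ := by
      have h1 : (4 / (B : ℝ) ^ 2) ≤ (Real.exp (-(3 / 2)) / C₀) ^ 4 := by
        have h2 : 2 / (B : ℝ) ≤ 1 / (Real.exp 3 * C₀ ^ 2) := by
          rw [div_le_div_iff₀ (by linarith) (by positivity)]
          linarith
        have h3 : (4 / (B : ℝ) ^ 2) = (2 / (B : ℝ)) ^ 2 := by ring
        have h4 : (Real.exp (-(3 / 2)) / C₀) ^ 4 = (1 / (Real.exp 3 * C₀ ^ 2)) ^ 2 := by
          have h5 : Real.exp (-(3 / 2)) ^ 2 = (Real.exp 3)⁻¹ := by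
            rw [← Real.exp_neg, ← Real.exp_nat_mul]
            congr 1
            norm_num
          rw [div_pow, show (4 : ℕ) = 2 * 2 by norm_num, pow_mul, h5, pow_mul]
          field_simp
        rw [h3, h4]
        exact pow_le_pow_left₀ (by positivity) h2 2
      refine (Real.rpow_le_rpow (by positivity) h1 (by norm_num)).trans ?_
      rw [← Real.rpow_natCast, ← Real.rpow_mul (by positivity)]
      norm_num
    calc Real.exp (θ / (1 - θ) * G / 2) *
          (C₀ * (Real.exp (-(2 * β * δ * κ) * S / 2) + 2 / (B : ℝ) ^ 2) ^ (θ / 2)) ≤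
          Real.exp (1 / 2) * (C₀ * (Real.exp (-(3 / 2)) / C₀)) := by
          apply mul_le_mul e1 _ (by positivity) (Real.exp_pos _).le
          exact mul_le_mul_of_nonneg_left (e6.trans e7) hC₀.le
      _ = Real.exp (1 / 2) * Real.exp (-(3 / 2)) := by
          field_simp
      _ = Real.exp (-1) := by
          rw [← Real.exp_add]
          norm_num

end Pool.Agent.P8H94.LPB
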